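import Pool.Agent.K9h82.OC.Ori
import Pool.Agent.N819.LT.Alex

/-!
# The integral Alexander polynomial and one cycle in the initial graph
-/

set_option autoImplicit false

namespace Pool.Agent.K9h82.OC

open Pool.Agent.TH625.LOG Pool.Agent.N819.LT Pool.Agent.K9h82.HT
open Pool.Agent.K9h82.UC (revL)
open Polynomial

section conn

variable {V E : Type} [Fintype V] [Fintype E] [DecidableEq V] [DecidableEq E]

theorem conn_of_det (r : V) (σ : V ≃ Option E) (p q : E → V) (h : (mz r σ p q).det ≠ 0) :
    Conn p q := by
  classical
  by_contra hno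
  unfold Conn at hno
  push Not at hno
  obtain ⟨v0, w0, hvw⟩ := hno
  apply h
  let B : Set V := {u | Relation.ReflTransGen (Joined p q) v0 u}
  have hv0 : v0 ∈ B := Relation.ReflTransGen.refl
  have hB : ∀ e, p e ∈ B ↔ q e ∈ B := by
    intro e
    exact ⟨fun h => Relation.ReflTransGen.tail h ⟨e, Or.inl ⟨rfl, rfl⟩⟩,
      fun h => Relation.ReflTransGen.tail h ⟨e, Or.inr ⟨rfl, rfl⟩⟩⟩
  refine Matrix.exists_mulVec_eq_zero_iff.1
    ⟨fun v => (if v ∈ B then 1 else 0) - (if r ∈ B then 1 else 0), ?_, ?_⟩
  · intro h1
    have h2 := congrFun h1 v0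
    have h3 := congrFun h1 w0
    simp only [Pi.zero_apply] at h2 h3
    rw [if_pos hv0] at h2
    rw [if_neg (show w0 ∉ B from hvw)] at h3
    omega
  · funext v
    obtain ⟨i, rfl⟩ := σ.symm.surjective v
    cases i with
    | none =>
      change ∑ w, mz r σ p q (σ.symm none) w * _ = 0
      simp only [mz_none, ite_mul, one_mul, zero_mul, Finset.sum_ite_eq', Finset.mem_univ, if_true,
        sub_self]
    | some e =>
      change ∑ w, mz r σ p q (σ.symm (some e)) w * _ = 0
      simp only [mz_some, sub_mul, ite_mul, one_mul, zero_mul, Finset.sum_sub_distrib,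
        Finset.sum_ite_eq', Finset.mem_univ, if_true]
      by_cases h1 : p e ∈ B
      · rw [if_pos h1, if_pos ((hB e).1 h1)]
        ring
      · rw [if_neg h1, if_neg fun h => h1 ((hB e).2 h)]
        ring

end conn

section alex

variable {V E : Type} [DecidableEq V]

/-- The Alexander matrix of `L` with the additional row `none`, which is the unit vector of the vertex
`r`; the columns are numbered by `σ`. The row of the edge `e` consists of the abelianised Fox derivatives
of the relator `x_ini x_lab x_ter⁻¹ x_lab⁻¹`: it is `1` at the initial vertex, plus `t - 1` at the label,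
plus `- t` at the terminal vertex. -/
noncomputable def alexZ (L : LOG V E) (r : V) (σ : V ≃ Option E) :
    Matrix (Option E) (Option E) ℤ[X] :=
  fun i j => i.elim (if σ.symm j = r then 1 else 0) fun e =>
    (if σ.symm j = L.ini e then 1 else 0) + (X - 1) * (if σ.symm j = L.lab e then 1 else 0) -
      X * (if σ.symm j = L.ter e then 1 else 0)

variable [Fintype V] [Fintype E] [DecidableEq E]

theorem det_alexZ (L : LOG V E) (r : V) (σ : V ≃ Option E) :
    (alexZ L r σ).det = ∑ o : E → Bool, (-X) ^ (Finset.univ.filter fun e => o e = true).card *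
      C (mz r σ (fun e => if o e = true then L.ter e else L.ini e) L.lab).det := by
  let f : MultilinearMap ℤ[X] (fun _ : Option E => Option E → ℤ[X]) ℤ[X] :=
    (Matrix.detRowAlternating :
      (Option E → ℤ[X]) [⋀^Option E]→ₗ[ℤ[X]] ℤ[X]).toMultilinearMap
  have hf : ∀ M : Matrix (Option E) (Option E) ℤ[X], f M = M.det := fun M => rfl
  let rw0 : (i : Option E) → Bool → (Option E → ℤ) := fun i t s =>
    i.elim (if σ.symm s = r then 1 else 0) fun e =>
      (if σ.symm s = (if t = true then L.ter e else L.ini e) then 1 else 0) -
        (if σ.symm s = L.lab e then 1 else 0)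
  let cf : (i : Option E) → Bool → ℤ[X] := fun i t => i.elim 1 fun _ => if t = true then -X else 1
  let g : (i : Option E) → Bool → (Option E → ℤ[X]) := fun i t =>
    cf i t • fun s => C (rw0 i t s)
  let A : Option E → Finset Bool := fun i => i.elim {true} fun _ => Finset.univ
  have hsum := f.map_sum_finset g A
  have hleft : (fun i => ∑ t ∈ A i, g i t) = alexZ L r σ := by
    funext i s
    cases i with
    | none => simp [A, g, cf, rw0, alexZ]
    | some e =>
      simp only [A, g, cf, rw0, Option.elim_some, alexZ]
      rw [Fintype.sum_bool]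
      simp only [Pi.add_apply, Pi.smul_apply, if_true, Bool.false_eq_true,
        if_false, smul_eq_mul, map_sub, apply_ite (C : ℤ → ℤ[X]), map_one, map_zero]
      ring
  rw [hleft, hf] at hsum
  have hright : ∀ ρ : Option E → Bool, (f fun i => g i (ρ i)) =
      (-X) ^ (Finset.univ.filter fun e => ρ (some e) = true).card *
        C (mz r σ (fun e => if ρ (some e) = true then L.ter e else L.ini e) L.lab).det := by
    intro ρ
    have h1 : (fun i => g i (ρ i)) =
        fun i => cf i (ρ i) • (fun s => C (rw0 i (ρ i) s) : Option E → ℤ[X]) := rfl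
    rw [h1, f.map_smul_univ, smul_eq_mul]
    congr 1
    · rw [Fintype.prod_option]
      simp only [cf, Option.elim_none, Option.elim_some, one_mul]
      rw [Finset.prod_ite, Finset.prod_const, Finset.prod_const_one, mul_one]
    · have h2 : (fun i => (fun s => C (rw0 i (ρ i) s) : Option E → ℤ[X])) =
          (((mz r σ (fun e => if ρ (some e) = true then L.ter e else L.ini e) L.lab).submatrix
            σ.symm σ.symm).map C) := by
        funext i s
        cases i with
        | none =>
          show C _ = C (mz r σ _ L.lab (σ.symm none) (σ.symm s))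
          rw [mz_none]
          rfl
        | some e =>
          show C _ = C (mz r σ _ L.lab (σ.symm (some e)) (σ.symm s))
          rw [mz_some]
          rfl
      rw [h2, hf, ← RingHom.mapMatrix_apply, ← RingHom.map_det, Matrix.det_submatrix_equiv_self]
  rw [Finset.sum_congr rfl fun ρ _ => hright ρ] at hsum
  rw [hsum]
  refine Finset.sum_nbij' (fun ρ e => ρ (some e)) (fun o i => i.elim true o) ?_ ?_ ?_ ?_ ?_
  · intro ρ _
    exact Finset.mem_univ _
  · intro o _
    rw [Fintype.mem_piFinset]
    intro i
    cases i with
    | none => simp [A]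
    | some e => simp [A]
  · intro ρ hρ
    rw [Fintype.mem_piFinset] at hρ
    funext i
    cases i with
    | none =>
      have := hρ none
      simp only [A, Option.elim_none, Finset.mem_singleton] at this
      rw [this]; rfl
    | some e => rfl
  · intro o _
    rfl
  · intro ρ _
    rfl

theorem coeff_alexZ (L : LOG V E) (r : V) (σ : V ≃ Option E) (j : ℕ) :
    (alexZ L r σ).det.coeff j = ∑ o : E → Bool,
      if (Finset.univ.filter fun e => o e = true).card = j then
        (-1) ^ j * (mz r σ (fun e => if o e = true then L.ter e else L.ini e) L.lab).det else 0 := by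
  rw [det_alexZ, finset_sum_coeff]
  refine Finset.sum_congr rfl fun o _ => ?_
  have h1 : ((-X : ℤ[X])) = C (-1) * X := by simp
  rw [coeff_mul_C, h1, mul_pow, ← C_pow, coeff_C_mul, coeff_X_pow]
  by_cases h : (Finset.univ.filter fun e => o e = true).card = j
  · rw [if_pos h.symm, if_pos h, h, mul_one]
  · rw [if_neg fun h1 => h h1.symm, if_neg h, mul_zero, zero_mul]

end alex

end Pool.Agent.K9h82.OC
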