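import Pool.Agent.K9h82.OC.AlexOne

/-!
# The Alexander polynomial and the filtered cycles
-/

set_option autoImplicit false

namespace Pool.Agent.K9h82.OC

open Pool.Agent.TH625.LOG Pool.Agent.N819.LT Pool.Agent.K9h82.HT
open Pool.Agent.K9h82.UC (revL)
open Polynomial

variable {V E : Type} [Fintype V] [Fintype E] [DecidableEq V] [DecidableEq E]

theorem coeff_zero_alexZ (L : LOG V E) (r : V) (σ : V ≃ Option E) :
    (alexZ L r σ).det.coeff 0 = (mz r σ L.ini L.lab).det := by
  rw [coeff_alexZ, Finset.sum_eq_single_of_mem (fun _ : E => false) (Finset.mem_univ _)]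
  · rw [if_pos (by simp)]
    simp
  · intro o _ ho
    rw [if_neg]
    intro h
    apply ho
    funext e
    rw [Finset.card_eq_zero, Finset.filter_eq_empty_iff] at h
    simpa using h (Finset.mem_univ e)

theorem coeff_one_alexZ (L : LOG V E) (r : V) (σ : V ≃ Option E) :
    (alexZ L r σ).det.coeff 1 =
      -∑ e, (mz r σ (Function.update L.ini e (L.ter e)) L.lab).det := by
  rw [coeff_alexZ, ← Finset.sum_filter]
  have h1 : ∀ e : E, (Finset.univ.filter fun e' : E =>
      Function.update (fun _ : E => false) e true e' = true) = {e} := by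
    intro e
    ext e'
    by_cases h : e' = e
    · subst h; simp
    · simp [Function.update_of_ne h, h]
  rw [← Finset.sum_neg_distrib]
  symm
  refine Finset.sum_bij (fun e _ => Function.update (fun _ : E => false) e true) ?_ ?_ ?_ ?_
  · intro e _
    rw [Finset.mem_filter]
    exact ⟨Finset.mem_univ _, by rw [h1, Finset.card_singleton]⟩
  · intro e _ e' _ h
    by_contra hne
    have h2 := congrFun h e
    simp only [Function.update_self, Function.update_of_ne hne] at h2
    exact absurd h2 (by decide)
  · intro o ho
    rw [Finset.mem_filter] at ho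
    obtain ⟨e, he⟩ := Finset.card_eq_one.1 ho.2
    refine ⟨e, Finset.mem_univ _, ?_⟩
    funext e'
    have h2 : e' ∈ (Finset.univ.filter fun e => o e = true) ↔ e' ∈ ({e} : Finset E) := by rw [he]
    simp only [Finset.mem_filter, Finset.mem_univ, true_and, Finset.mem_singleton] at h2
    by_cases h : e' = e
    · subst h
      rw [Function.update_self]
      exact (h2.2 rfl).symm
    · rw [Function.update_of_ne h]
      cases h3 : o e' with
      | false => rfl
      | true => exact absurd (h2.1 h3) h
  · intro e _
    rw [pow_one, neg_one_mul]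
    congr 2
    have h2 : (fun e' => if Function.update (fun _ : E => false) e true e' = true then L.ter e' else
        L.ini e') = Function.update L.ini e (L.ter e) := by
      funext e'
      by_cases h : e' = e
      · subst h; simp
      · simp [Function.update_of_ne h]
    rw [h2]

theorem coeff_rev (L : LOG V E) (r : V) (σ : V ≃ Option E) (i j : ℕ) (hij : i + j = Fintype.card E) :
    (alexZ (revL L) r σ).det.coeff i = (-1) ^ Fintype.card E * (alexZ L r σ).det.coeff j := by
  rw [coeff_alexZ, coeff_alexZ, Finset.mul_sum]
  have hinv : Function.Involutive fun (o : E → Bool) (e : E) => !o e := by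
    intro o
    funext e
    simp
  rw [← hinv.bijective.sum_comp]
  refine Finset.sum_congr rfl fun o _ => ?_
  show (if (Finset.univ.filter fun e => (!o e) = true).card = i then
    (-1) ^ i * (mz r σ (fun e => if (!o e) = true then L.ini e else L.ter e) L.lab).det else 0) = _
  have h1 : (Finset.univ.filter fun e => (!o e) = true).card +
      (Finset.univ.filter fun e => o e = true).card = Fintype.card E := by
    have h2 := Finset.card_filter_add_card_filter_not (s := (Finset.univ : Finset E))
      (fun e => o e = true)
    rw [Finset.card_univ] at h2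
    rw [← h2, add_comm]
    congr 1
    congr 1
    ext e
    simp
  by_cases h : (Finset.univ.filter fun e => o e = true).card = j
  · rw [if_pos h, if_pos (by omega), ← mul_assoc, ← pow_add]
    have h3 : ((-1 : ℤ)) ^ (Fintype.card E + j) = (-1) ^ i := by
      rw [← hij, show i + j + j = i + 2 * j by ring, pow_add, pow_mul]
      simp
    rw [h3]
    congr 2
    congr 1
    funext e
    show (if (!o e) = true then L.ini e else L.ter e) = if o e = true then L.ter e else L.ini e
    cases o e <;> simp
  · rw [if_neg h, if_neg (by omega), mul_zero]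

theorem coeff_high (L : LOG V E) (r : V) (σ : V ≃ Option E) (j : ℕ) (hj : Fintype.card E < j) :
    (alexZ L r σ).det.coeff j = 0 := by
  rw [coeff_alexZ]
  refine Finset.sum_eq_zero fun o _ => if_neg fun h => ?_
  have := Finset.card_le_univ (Finset.univ.filter fun e => o e = true)
  omega

/-- if the coefficient at `1` or at `t` is not `0` then the cycles are filtered -/
theorem flt_of_coeff (L : LOG V E) (r : V) (σ : V ≃ Option E)
    (h : (alexZ L r σ).det.coeff 0 ≠ 0 ∨ (alexZ L r σ).det.coeff 1 ≠ 0) :
    ∃ (β : ℕ) (κ : V → ℕ), Flt L β κ := by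
  by_cases hc : Conn L.ini L.lab
  · exact ⟨0, _, flt_zero L hc⟩
  · rcases h with h | h
    · rw [coeff_zero_alexZ] at h
      exact absurd (conn_of_det r σ _ _ h) hc
    · rw [coeff_one_alexZ, neg_ne_zero] at h
      obtain ⟨κ, hκ⟩ := flt_int L r σ hc h
      exact ⟨1, κ, hκ⟩

theorem det_ne_zero' (L : LOG V E) (hL : L.Conn) (r : V) (σ : V ≃ Option E) :
    (alexZ L r σ).det ≠ 0 := by
  intro h0
  have h1 : ((alexZ L r σ).map (Polynomial.evalRingHom (1 : ℤ))).det = 0 := by
    rw [← RingHom.mapMatrix_apply, ← RingHom.map_det, h0, map_zero]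
  have h2 : (alexZ L r σ).map (Polynomial.evalRingHom (1 : ℤ)) =
      (mz r σ L.ini L.ter).submatrix σ.symm σ.symm := by
    funext i s
    cases i with
    | none =>
      show Polynomial.eval 1 (if σ.symm s = r then (1 : ℤ[X]) else 0) =
        mz r σ L.ini L.ter (σ.symm none) (σ.symm s)
      rw [mz_none]
      split_ifs <;> simp
    | some e =>
      show Polynomial.eval 1 ((if σ.symm s = L.ini e then (1 : ℤ[X]) else 0) +
        (X - 1) * (if σ.symm s = L.lab e then 1 else 0) - X * (if σ.symm s = L.ter e then 1 else 0)) =
        mz r σ L.ini L.ter (σ.symm (some e)) (σ.symm s)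
      rw [mz_some, eval_sub, eval_add, eval_mul, eval_mul, eval_sub, eval_X, eval_one, sub_self,
        zero_mul, add_zero, one_mul]
      split_ifs <;> simp
  rw [h2, Matrix.det_submatrix_equiv_self] at h1
  have h3 : Conn L.ini L.ter := by
    intro x y
    have h5 : ∀ a b, L.Adj a b → Joined L.ini L.ter a b := fun a b h => h
    induction hL x y with
    | refl => exact Relation.ReflTransGen.refl
    | tail _ h ih => exact ih.tail (h5 _ _ h)
  have h4 := (odd_iff r σ L.ini L.ter).2 h3
  rw [h1] at h4
  exact h4 (by simp)

/-- **The Alexander polynomial.** -/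
theorem flt_of_alex (L : LOG V E) (hL : L.Conn) (r : V) (σ : V ≃ Option E)
    (h : (alexZ L r σ).det.natTrailingDegree ≤ 1 ∨
      Fintype.card E ≤ (alexZ L r σ).det.natDegree + 1) :
    ∃ (β : ℕ) (κ : V → ℕ), Flt L β κ ∨ Flt (revL L) β κ := by
  have hne := det_ne_zero' L hL r σ
  rcases h with h | h
  · have h1 : (alexZ L r σ).det.coeff (alexZ L r σ).det.natTrailingDegree ≠ 0 := by
      rw [← trailingCoeff]
      exact trailingCoeff_nonzero_iff_nonzero.2 hne
    obtain ⟨β, κ, hκ⟩ := flt_of_coeff L r σ (by
      have h2 : (alexZ L r σ).det.natTrailingDegree = 0 ∨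
        (alexZ L r σ).det.natTrailingDegree = 1 := by omega
      rcases h2 with h2 | h2
      · rw [h2] at h1; exact Or.inl h1
      · rw [h2] at h1; exact Or.inr h1)
    exact ⟨β, κ, Or.inl hκ⟩
  · have h1 : (alexZ L r σ).det.coeff (alexZ L r σ).det.natDegree ≠ 0 := by
      rw [coeff_natDegree]
      exact leadingCoeff_ne_zero.2 hne
    have h2 : (alexZ L r σ).det.natDegree ≤ Fintype.card E := by
      by_contra h3
      exact h1 (coeff_high L r σ _ (by omega))
    obtain ⟨β, κ, hκ⟩ := flt_of_coeff (revL L) r σ (by
      have h3 : Fintype.card E - (alexZ L r σ).det.natDegree = 0 ∨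
        Fintype.card E - (alexZ L r σ).det.natDegree = 1 := by omega
      have h4 := coeff_rev L r σ (Fintype.card E - (alexZ L r σ).det.natDegree)
        (alexZ L r σ).det.natDegree (by omega)
      have h5 : (alexZ (revL L) r σ).det.coeff (Fintype.card E - (alexZ L r σ).det.natDegree) ≠ 0 := by
        rw [h4]
        exact mul_ne_zero (pow_ne_zero _ (by norm_num)) h1
      rcases h3 with h3 | h3
      · rw [h3] at h5; exact Or.inl h5
      · rw [h3] at h5; exact Or.inr h5)
    exact ⟨β, κ, Or.inr hκ⟩

/-- **The degree of the Alexander polynomial.** -/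
theorem flt_of_degree (L : LOG V E) (hL : L.Conn) (hcard : Fintype.card V = Fintype.card E + 1)
    (r : V) (σ : V ≃ Option E)
    (h : Fintype.card V ≤ (alexZ L r σ).det.natDegree - (alexZ L r σ).det.natTrailingDegree + 4) :
    ∃ (β : ℕ) (κ : V → ℕ), Flt L β κ ∨ Flt (revL L) β κ :=
  flt_of_alex L hL r σ (by
    have := natTrailingDegree_le_natDegree (alexZ L r σ).det
    omega)

end Pool.Agent.K9h82.OC
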