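import Pool.Agent.K9h82.OC.AlexDef

/-!
# One cycle in the initial graph and the Alexander polynomial
-/

set_option autoImplicit false

namespace Pool.Agent.K9h82.OC

open Pool.Agent.TH625.LOG Pool.Agent.N819.LT Pool.Agent.K9h82.HT
open Pool.Agent.K9h82.UC (revL)
open Polynomial

section one

variable {V E : Type} [Fintype V] [Fintype E] [DecidableEq V] [DecidableEq E]

open Classical in
/-- **One cycle.** -/
theorem flt_int (L : LOG V E) (r : V) (σ : V ≃ Option E)
    (hno : ¬ Conn L.ini L.lab)
    (hsum : ∑ e, (mz r σ (Function.update L.ini e (L.ter e)) L.lab).det ≠ 0) :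
    ∃ κ, Flt L 1 κ := by
  obtain ⟨e0, -, he0⟩ := Finset.exists_ne_zero_of_sum_ne_zero hsum
  have hce0 : Conn (Function.update L.ini e0 (L.ter e0)) L.lab := conn_of_det r σ _ _ he0
  let R : V → V → Prop := fun a b => ∃ e, L.ini e = a ∧ L.lab e = b
  have hRc : ∀ v e, Relation.EqvGen R v (L.ini e) ↔ Relation.EqvGen R v (L.lab e) := by
    intro v e
    have h1 : Relation.EqvGen R (L.ini e) (L.lab e) := Relation.EqvGen.rel _ _ ⟨e, rfl, rfl⟩
    exact ⟨fun h => h.trans _ _ _ h1, fun h => h.trans _ _ _ (h1.symm _ _)⟩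
  -- closed sets
  have hcl : ∀ B : Set V, (∀ e, L.ini e ∈ B ↔ L.lab e ∈ B) → (L.ter e0 ∈ B ↔ L.lab e0 ∈ B) →
      ∀ v w, v ∈ B → w ∈ B := by
    intro B h1 h2
    refine closed_of_conn hce0 B fun e => ?_
    by_cases he : e = e0
    · subst he
      rw [Function.update_self]
      exact h2
    · rw [Function.update_of_ne he]
      exact h1 e
  let C : Set V := {v | Relation.EqvGen R (L.lab e0) v}
  have hC0 : L.lab e0 ∈ C := Relation.EqvGen.refl _
  have hCc : ∀ e, L.ini e ∈ C ↔ L.lab e ∈ C := fun e => hRc _ e
  have hter : L.ter e0 ∉ C := by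
    intro h1
    have h2 : ∀ w, w ∈ C := fun w => hcl C hCc ⟨fun _ => hC0, fun _ => h1⟩ _ w hC0
    apply hno
    have h3 : ∀ a b, Relation.EqvGen R a b → Relation.ReflTransGen (Joined L.ini L.lab) a b := by
      intro a b hab
      induction hab with
      | rel a b h =>
        obtain ⟨e, h4, h5⟩ := h
        exact Relation.ReflTransGen.single ⟨e, Or.inl ⟨h4, h5⟩⟩
      | refl a => exact Relation.ReflTransGen.refl
      | symm a b _ ih =>
        have hs : ∀ x y, Relation.ReflTransGen (Joined L.ini L.lab) x y →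
            Relation.ReflTransGen (Joined L.ini L.lab) y x := by
          intro x y hxy
          induction hxy with
          | refl => exact Relation.ReflTransGen.refl
          | tail _ h1 ih => exact Relation.ReflTransGen.head h1.symm ih
        exact hs _ _ ih
      | trans a b c _ _ ih1 ih2 => exact ih1.trans ih2
    intro v w
    exact h3 v w (((h2 v).symm _ _).trans _ _ _ (h2 w))
  -- the other component
  have hoth : ∀ v, v ∉ C → Relation.EqvGen R v (L.ter e0) := by
    intro v hv
    by_contra h1
    have h2 : L.lab e0 ∉ {u | Relation.EqvGen R v u} := fun h => hv (Relation.EqvGen.symm _ _ h)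
    exact h2 (hcl {u | Relation.EqvGen R v u} (fun e => hRc v e)
      ⟨fun h => absurd h h1, fun h => absurd h h2⟩ v _ (Relation.EqvGen.refl _))
  let κ : V → ℕ := fun v => if v ∈ C then 0 else 1
  have hκ0 : ∀ v, v ∈ C → κ v = 0 := fun v hv => if_pos hv
  have hκ1 : ∀ v, v ∉ C → κ v = 1 := fun v hv => if_neg hv
  -- the matrix
  let M : Matrix V V ℤ := mz r σ L.ini L.lab
  have hdet : M.det = 0 := by
    refine Matrix.exists_mulVec_eq_zero_iff.1
      ⟨fun v => (if v ∈ C then 1 else 0) - (if r ∈ C then 1 else 0), ?_, ?_⟩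
    · intro h1
      have h2 := congrFun h1 (L.lab e0)
      have h3 := congrFun h1 (L.ter e0)
      simp only [Pi.zero_apply] at h2 h3
      rw [if_pos hC0] at h2
      rw [if_neg hter] at h3
      omega
    · funext v
      obtain ⟨i, rfl⟩ := σ.symm.surjective v
      cases i with
      | none =>
        change ∑ w, M (σ.symm none) w * _ = 0
        simp only [M, mz_none, ite_mul, one_mul, zero_mul, Finset.sum_ite_eq', Finset.mem_univ, if_true,
          sub_self]
      | some e =>
        change ∑ w, M (σ.symm (some e)) w * _ = 0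
        simp only [M, mz_some, sub_mul, ite_mul, one_mul, zero_mul, Finset.sum_sub_distrib,
          Finset.sum_ite_eq', Finset.mem_univ, if_true]
        by_cases h1 : L.ini e ∈ C
        · rw [if_pos h1, if_pos ((hCc e).1 h1)]
          ring
        · rw [if_neg h1, if_neg fun h => h1 ((hCc e).2 h)]
          ring
  let A : Matrix V V ℤ := M.adjugate
  have hAM : ∀ w v, ∑ u, A w u * M u v = 0 := by
    intro w v
    have h1 : A * M = 0 := by
      rw [Matrix.adjugate_mul, hdet, zero_smul]
    exact congrFun (congrFun h1 w) v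
  have hMA : ∀ u v, ∑ w, M u w * A w v = 0 := by
    intro u v
    have h1 : M * A = 0 := by
      rw [Matrix.mul_adjugate, hdet, zero_smul]
    exact congrFun (congrFun h1 u) v
  -- the columns are constant on the components
  have hcol : ∀ u e, A (L.ini e) u = A (L.lab e) u := by
    intro u e
    have h1 := hMA (σ.symm (some e)) u
    simp only [M, mz_some, sub_mul, ite_mul, one_mul, zero_mul, Finset.sum_sub_distrib,
      Finset.sum_ite_eq', Finset.mem_univ, if_true] at h1
    exact sub_eq_zero.1 h1
  have hcolE : ∀ u a b, Relation.EqvGen R a b → A a u = A b u := by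
    intro u a b hab
    induction hab with
    | rel a b h =>
      obtain ⟨e, rfl, rfl⟩ := h
      exact hcol u e
    | refl a => rfl
    | symm a b _ ih => exact ih.symm
    | trans a b c _ _ ih1 ih2 => exact ih1.trans ih2
  let y : V → ℤ := fun u => A (L.ter e0) u - A (L.lab e0) u
  have hy : ∀ v, y (σ.symm none) * (if v = r then 1 else 0) +
      ∑ e, y (σ.symm (some e)) * ((if v = L.ini e then 1 else 0) - (if v = L.lab e then 1 else 0)) = 0 := by
    intro v
    have h1 : ∑ u, y u * M u v = 0 := by
      have h2 : ∀ u, y u * M u v = A (L.ter e0) u * M u v - A (L.lab e0) u * M u v :=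
        fun u => sub_mul _ _ _
      rw [Finset.sum_congr rfl fun u _ => h2 u, Finset.sum_sub_distrib, hAM, hAM, sub_zero]
    rw [sum_opt σ] at h1
    simp only [M, mz_none, mz_some] at h1
    exact h1
  have hy0 : y (σ.symm none) = 0 := by
    have h1 : ∑ v, (y (σ.symm none) * (if v = r then 1 else 0) +
      ∑ e, y (σ.symm (some e)) * ((if v = L.ini e then 1 else 0) - (if v = L.lab e then 1 else 0))) =
        0 := Finset.sum_eq_zero fun v _ => hy v
    rw [Finset.sum_add_distrib, Finset.sum_comm] at h1
    have h2 : ∀ e ∈ (Finset.univ : Finset E), ∑ v, y (σ.symm (some e)) *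
        ((if v = L.ini e then 1 else 0) - (if v = L.lab e then 1 else 0)) = 0 := by
      intro e _
      rw [← Finset.mul_sum, Finset.sum_sub_distrib, Finset.sum_ite_eq', Finset.sum_ite_eq',
        if_pos (Finset.mem_univ _), if_pos (Finset.mem_univ _), sub_self, mul_zero]
    rw [Finset.sum_eq_zero h2, add_zero, ← Finset.mul_sum, Finset.sum_ite_eq',
      if_pos (Finset.mem_univ _), mul_one] at h1
    exact h1
  let z : E → ℤ := fun e => y (σ.symm (some e))
  -- the flipped matrices
  have hflip : ∀ e, (mz r σ (Function.update L.ini e (L.ter e)) L.lab).det =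
      z e * ((if κ (L.ter e) = 1 then 1 else 0) - (if κ (L.lab e) = 1 then 1 else 0)) := by
    intro e
    have h1 : mz r σ (Function.update L.ini e (L.ter e)) L.lab = M.updateRow (σ.symm (some e))
        (fun w => (if w = L.ter e then 1 else 0) - (if w = L.lab e then 1 else 0)) := by
      funext v w
      by_cases hv : v = σ.symm (some e)
      · subst hv
        rw [Matrix.updateRow_self, mz_some, Function.update_self]
      · rw [Matrix.updateRow_ne hv]
        obtain ⟨i, rfl⟩ := σ.symm.surjective v
        cases i with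
        | none => simp only [M, mz_none]
        | some e' =>
          have h2 : e' ≠ e := fun h => hv (by rw [h])
          simp only [M, mz_some, Function.update_of_ne h2]
    rw [h1, det_row]
    simp only [sub_mul, ite_mul, one_mul, zero_mul, Finset.sum_sub_distrib,
      Finset.sum_ite_eq', Finset.mem_univ, if_true]
    have h2 : ∀ v u, v ∈ C → M.adjugate v u = A (L.lab e0) u := fun v u hv =>
      (hcolE u _ _ hv).symm
    have h3 : ∀ v u, v ∉ C → M.adjugate v u = A (L.ter e0) u := fun v u hv =>
      hcolE u _ _ (hoth v hv)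
    by_cases h4 : L.ter e ∈ C <;> by_cases h5 : L.lab e ∈ C
    · rw [h2 _ _ h4, h2 _ _ h5, hκ0 _ h4, hκ0 _ h5]
      simp
    · rw [h2 _ _ h4, h3 _ _ h5, hκ0 _ h4, hκ1 _ h5]
      simp only [zero_ne_one, if_false, if_true, z, y]
      ring
    · rw [h3 _ _ h4, h2 _ _ h5, hκ1 _ h4, hκ0 _ h5]
      simp only [zero_ne_one, if_false, if_true, z, y]
      ring
    · rw [h3 _ _ h4, h3 _ _ h5, hκ1 _ h4, hκ1 _ h5]
      simp
  have hT : ∑ e, z e * ((if κ (L.ter e) = 1 then 1 else 0) - (if κ (L.lab e) = 1 then 1 else 0)) ≠ 0 := by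
    rw [← Finset.sum_congr rfl fun e _ => hflip e]
    exact hsum
  refine ⟨κ, ⟨?_, ?_, ?_⟩⟩
  · intro v
    by_cases hv : v ∈ C
    · rw [hκ0 v hv]; omega
    · rw [hκ1 v hv]
  · intro v w
    constructor
    · intro h1
      by_cases hv : v ∈ C
      · by_cases hw : w ∈ C
        · exact (Relation.EqvGen.symm _ _ hv).trans _ _ _ hw
        · rw [hκ0 v hv, hκ1 w hw] at h1
          exact absurd h1 zero_ne_one
      · by_cases hw : w ∈ C
        · rw [hκ1 v hv, hκ0 w hw] at h1
          exact absurd h1 one_ne_zero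
        · exact (hoth v hv).trans _ _ _ ((hoth w hw).symm _ _)
    · intro h1
      have h2 : v ∈ C ↔ w ∈ C := ⟨fun h => h.trans _ _ _ h1, fun h => h.trans _ _ _ (h1.symm _ _)⟩
      by_cases hv : v ∈ C
      · rw [hκ0 v hv, hκ0 w (h2.1 hv)]
      · rw [hκ1 v hv, hκ1 w fun h => hv (h2.2 h)]
  · intro k hk1 hk2
    have hk : k = 1 := by omega
    subst hk
    refine ⟨z, ?_, ?_, ?_⟩
    · intro v
      have h1 := hy v
      rw [hy0, zero_mul, zero_add] at h1
      refine Eq.trans (Finset.sum_congr rfl fun e _ => ?_) h1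
      by_cases h2 : L.ini e = v <;> by_cases h3 : L.lab e = v
      · rw [if_pos h2, if_pos h3, if_pos h2.symm, if_pos h3.symm]
      · rw [if_pos h2, if_neg h3, if_pos h2.symm, if_neg fun h => h3 h.symm]
      · rw [if_neg h2, if_pos h3, if_neg (fun h => h2 h.symm), if_pos h3.symm]
      · rw [if_neg h2, if_neg h3, if_neg (fun h => h2 h.symm), if_neg fun h => h3 h.symm]
    · intro e _
      have hle : ∀ v, κ v ≤ 1 := by
        intro v
        by_cases hv : v ∈ C
        · rw [hκ0 v hv]; omega
        · rw [hκ1 v hv]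
      exact ⟨hle _, hle _⟩
    · by_contra hcon
      push Not at hcon
      apply hT
      have h1 : ∑ e, z e * ((if κ (L.ter e) = 1 then 1 else 0) - (if κ (L.lab e) = 1 then 1 else 0)) =
          ∑ g ∈ Finset.univ.image (fun e => L.gen (L.lab e)), crossing L κ 1 z g := by
        unfold crossing
        rw [Finset.sum_comm]
        refine Finset.sum_congr rfl fun e _ => ?_
        rw [Finset.sum_ite_eq, if_pos (Finset.mem_image_of_mem _ (Finset.mem_univ e))]
      rw [h1]
      exact Finset.sum_eq_zero fun g _ => hcon g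


end one

end Pool.Agent.K9h82.OC
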