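import Mathlib

/-!
# Functions on the cube with an odd number of ones
-/

set_option autoImplicit false

namespace Pool.Agent.K9h82.OC

open Finset

variable {m : ℕ}

/-- change of a coordinate -/
def fl (i : Fin m) (o : Fin m → Bool) : Fin m → Bool := Function.update o i (!o i)

/-- the sum over the neighbours -/
def nb (f : (Fin m → Bool) → ZMod 2) (o : Fin m → Bool) : ZMod 2 := ∑ i, f (fl i o)

/-- the opposite vertex -/
def ng (o : Fin m → Bool) : Fin m → Bool := fun i => !o i

theorem fl_fl (i : Fin m) (o : Fin m → Bool) : fl i (fl i o) = o := by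
  unfold fl
  rw [Function.update_self, Function.update_idem, Bool.not_not, Function.update_eq_self]

theorem fl_ne (i : Fin m) (o : Fin m → Bool) : fl i o ≠ o := by
  intro h
  have h1 := congrFun h i
  unfold fl at h1
  rw [Function.update_self] at h1
  cases h2 : o i <;> rw [h2] at h1 <;> cases h1

theorem ng_ng (o : Fin m → Bool) : ng (ng o) = o := by
  funext i
  exact Bool.not_not _

theorem fl_same (p : Fin (m + 1)) (b : Bool) (o : Fin m → Bool) :
    fl p (p.insertNth (α := fun _ => Bool) b o) = p.insertNth (α := fun _ => Bool) (!b) o := by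
  unfold fl
  rw [Fin.insertNth_apply_same, Fin.update_insertNth]

theorem fl_succ (p : Fin (m + 1)) (b : Bool) (o : Fin m → Bool) (i : Fin m) :
    fl (p.succAbove i) (p.insertNth (α := fun _ => Bool) b o) =
      p.insertNth (α := fun _ => Bool) b (fl i o) := by
  unfold fl
  rw [Fin.insertNth_apply_succAbove]
  funext j
  rcases Fin.eq_self_or_eq_succAbove p j with rfl | ⟨k, rfl⟩
  · rw [Function.update_of_ne (Fin.succAbove_ne j i).symm, Fin.insertNth_apply_same,
      Fin.insertNth_apply_same]
  · rw [Fin.insertNth_apply_succAbove]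
    by_cases h : k = i
    · subst h
      rw [Function.update_self, Function.update_self]
    · rw [Function.update_of_ne h, Function.update_of_ne (fun h1 => h (Fin.succAbove_right_injective h1)),
        Fin.insertNth_apply_succAbove]

theorem ng_ins (p : Fin (m + 1)) (b : Bool) (o : Fin m → Bool) :
    ng (p.insertNth (α := fun _ => Bool) b o) = p.insertNth (α := fun _ => Bool) (!b) (ng o) := by
  funext j
  rcases Fin.eq_self_or_eq_succAbove p j with rfl | ⟨k, rfl⟩
  · unfold ng
    rw [Fin.insertNth_apply_same, Fin.insertNth_apply_same]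
  · unfold ng
    rw [Fin.insertNth_apply_succAbove, Fin.insertNth_apply_succAbove]

/-- a half of the function -/
def hf (p : Fin (m + 1)) (b : Bool) (f : (Fin (m + 1) → Bool) → ZMod 2) (o : Fin m → Bool) : ZMod 2 :=
  f (p.insertNth (α := fun _ => Bool) b o)

theorem nb_ins (f : (Fin (m + 1) → Bool) → ZMod 2) (p : Fin (m + 1)) (b : Bool) (o : Fin m → Bool) :
    nb f (p.insertNth (α := fun _ => Bool) b o) = hf p (!b) f o + nb (hf p b f) o := by
  unfold nb hf
  rw [Fin.sum_univ_succAbove _ p, fl_same]
  congr 1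
  refine Finset.sum_congr rfl fun i _ => ?_
  rw [fl_succ]

theorem sum_ins (p : Fin (m + 1)) (f : (Fin (m + 1) → Bool) → ZMod 2) :
    ∑ o, f o = ∑ o, hf p true f o + ∑ o, hf p false f o := by
  rw [← (Fin.insertNthEquiv (fun _ => Bool) p).sum_comp f, Fintype.sum_prod_type, Fintype.sum_bool]
  rfl

theorem sum_fl (f : (Fin m → Bool) → ZMod 2) (i : Fin m) : ∑ o, f (fl i o) = ∑ o, f o := by
  exact Function.Bijective.sum_comp (e := fl i) (Function.Involutive.bijective (fl_fl i)) f

theorem sum_nb (f : (Fin m → Bool) → ZMod 2) : ∑ o, nb f o = m * ∑ o, f o := by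
  unfold nb
  rw [Finset.sum_comm]
  simp only [sum_fl, Finset.sum_const, Finset.card_univ, Fintype.card_fin, nsmul_eq_mul]

theorem two (a : ZMod 2) : a + a = 0 := by
  revert a; decide

theorem quad (f : (Fin m → Bool) → ZMod 2) : ∑ o, f o * nb f o = 0 := by
  unfold nb
  simp only [Finset.mul_sum]
  rw [Finset.sum_comm]
  refine Finset.sum_eq_zero fun i _ => ?_
  refine Finset.sum_involution (fun o _ => fl i o) ?_ ?_ ?_ ?_
  · intro o _
    rw [fl_fl, mul_comm (f (fl i o)) (f o)]
    exact two _
  · intro o _ _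
    exact fl_ne i o
  · intro o _
    exact Finset.mem_univ _
  · intro o _
    exact fl_fl i o

theorem z2 (a : ZMod 2) (h : a ≠ 0) : a = 1 := by
  revert a; decide

theorem exists_b (p : Fin (m + 1)) (f : (Fin (m + 1) → Bool) → ZMod 2) (hf1 : ∑ o, f o = 1) :
    ∃ b, ∑ o, hf p b f o = 1 ∧ ∑ o, hf p (!b) f o = 0 := by
  rw [sum_ins p] at hf1
  by_cases h : ∑ o, hf p true f o = 0
  · rw [h, zero_add] at hf1
    exact ⟨false, hf1, h⟩
  · have h1 := z2 _ h
    refine ⟨true, h1, ?_⟩
    rw [h1] at hf1
    have h2 : ∀ a : ZMod 2, 1 + a = 1 → a = 0 := by decide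
    exact h2 _ hf1

/-- the neighbour sums do not vanish -/
theorem nb_ne (f : (Fin (m + 1) → Bool) → ZMod 2) (hf1 : ∑ o, f o = 1) : ∃ o, nb f o ≠ 0 := by
  by_contra hcon
  push Not at hcon
  obtain ⟨b, h1, h2⟩ := exists_b 0 f hf1
  have h3 : ∀ o, nb (hf 0 (!b) f) o = hf 0 b f o := by
    intro o
    have h4 := hcon ((0 : Fin (m + 1)).insertNth (α := fun _ => Bool) (!b) o)
    rw [nb_ins, Bool.not_not] at h4
    have h5 : ∀ a c : ZMod 2, a + c = 0 → c = a := by decide
    exact h5 _ _ h4
  have h4 := sum_nb (hf 0 (!b) f)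
  rw [h2, mul_zero, Finset.sum_congr rfl fun o _ => h3 o, h1] at h4
  exact one_ne_zero h4

/-- the points of a set with the coordinate `b` -/
def hs (p : Fin (m + 1)) (b : Bool) (U : Finset (Fin (m + 1) → Bool)) : Finset (Fin m → Bool) :=
  Finset.univ.filter fun o => p.insertNth (α := fun _ => Bool) b o ∈ U

theorem mem_hs (p : Fin (m + 1)) (b : Bool) (U : Finset (Fin (m + 1) → Bool)) (o : Fin m → Bool) :
    o ∈ hs p b U ↔ p.insertNth (α := fun _ => Bool) b o ∈ U := by
  unfold hs
  rw [Finset.mem_filter]
  exact ⟨fun h => h.2, fun h => ⟨Finset.mem_univ _, h⟩⟩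

theorem card_hs (p : Fin (m + 1)) (U : Finset (Fin (m + 1) → Bool)) (b : Bool) :
    U.card = (hs p b U).card + (hs p (!b) U).card := by
  classical
  have h1 : ∀ b, (hs p b U).card = (U.filter fun o => o p = b).card := by
    intro b
    refine Finset.card_nbij' (fun o => p.insertNth (α := fun _ => Bool) b o)
      (fun o => p.removeNth o) ?_ ?_ ?_ ?_
    · intro o ho
      rw [Finset.mem_coe, mem_hs] at ho
      rw [Finset.mem_coe, Finset.mem_filter]
      exact ⟨ho, Fin.insertNth_apply_same _ _ _⟩
    · intro o ho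
      rw [Finset.mem_coe, Finset.mem_filter] at ho
      rw [Finset.mem_coe, mem_hs, ← ho.2, Fin.insertNth_self_removeNth]
      exact ho.1
    · intro o _
      exact Fin.removeNth_insertNth _ _ _
    · intro o ho
      rw [Finset.mem_coe, Finset.mem_filter] at ho
      simp only
      rw [← ho.2, Fin.insertNth_self_removeNth]
  rw [h1, h1, ← Finset.card_filter_add_card_filter_not (s := U) (fun o => o p = b)]
  congr 2
  ext o
  simp only [Finset.mem_filter]
  refine and_congr_right fun _ => ?_
  cases o p <;> cases b <;> simp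

/-- **The number of points at which the function or its neighbour sum does not vanish.** -/
theorem count : ∀ (m : ℕ) (f : (Fin m → Bool) → ZMod 2), ∑ o, f o = 1 →
    ∀ U : Finset (Fin m → Bool), (∀ o, f o ≠ 0 → o ∈ U) → (∀ o, nb f o ≠ 0 → o ∈ U) →
      m + 1 ≤ U.card := by
  classical
  intro m
  induction m with
  | zero =>
    intro f hf1 U hU _
    obtain ⟨o, _, ho⟩ := Finset.exists_ne_zero_of_sum_ne_zero (by rw [hf1]; exact one_ne_zero)
    exact Finset.card_pos.2 ⟨o, hU o ho⟩
  | succ m ih =>
    intro f hf1 U hU hN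
    obtain ⟨b, h1, h2⟩ := exists_b 0 f hf1
    have hc := card_hs 0 U b
    have hU0 : ∀ b o, hf 0 b f o ≠ 0 → o ∈ hs 0 b U := fun b o h => (mem_hs _ _ _ _).2 (hU _ h)
    have hN0 : ∀ b o, hf 0 (!b) f o + nb (hf 0 b f) o ≠ 0 → o ∈ hs 0 b U := fun b o h =>
      (mem_hs _ _ _ _).2 (hN _ (by rw [nb_ins]; exact h))
    let Z : Finset (Fin m → Bool) := Finset.univ.filter fun o => hf 0 (!b) f o ≠ 0
    have hZ : Z ⊆ hs 0 (!b) U := fun o ho => hU0 _ o (Finset.mem_filter.1 ho).2
    have h3 := ih (hf 0 b f) h1 (hs 0 b U ∪ Z) (fun o ho => Finset.mem_union_left _ (hU0 b o ho))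
      (fun o ho => by
        by_cases h4 : hf 0 (!b) f o = 0
        · refine Finset.mem_union_left _ (hN0 b o ?_)
          rw [h4, zero_add]
          exact ho
        · exact Finset.mem_union_right _ (Finset.mem_filter.2 ⟨Finset.mem_univ _, h4⟩))
    by_contra hcon
    have h4 := Finset.card_union_le (hs 0 b U) Z
    have h5 := Finset.card_le_card hZ
    have h6 : Z = hs 0 (!b) U := Finset.eq_of_subset_of_card_le hZ (by omega)
    have h7 : Disjoint (hs 0 b U) Z := by
      rw [← Finset.card_union_eq_card_add_card]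
      omega
    have h8 : ∀ o, nb (hf 0 (!b) f) o = hf 0 b f o + hf 0 (!b) f o * nb (hf 0 (!b) f) o := by
      intro o
      by_cases h9 : hf 0 (!b) f o = 0
      · rw [h9, zero_mul, add_zero]
        have h10 : o ∉ hs 0 (!b) U := by
          rw [← h6]
          intro h11
          exact (Finset.mem_filter.1 h11).2 h9
        have h11 : hf 0 b f o + nb (hf 0 (!b) f) o = 0 := by
          by_contra h12
          refine h10 (hN0 (!b) o ?_)
          rw [Bool.not_not]
          exact h12
        have h5 : ∀ a c : ZMod 2, a + c = 0 → c = a := by decide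
        exact h5 _ _ h11
      · have h10 : o ∈ Z := Finset.mem_filter.2 ⟨Finset.mem_univ _, h9⟩
        have h11 : hf 0 b f o = 0 := by
          by_contra h12
          exact (Finset.disjoint_left.1 h7) (hU0 b o h12) h10
        rw [h11, zero_add, z2 _ h9, one_mul]
    have h9 := sum_nb (hf 0 (!b) f)
    rw [h2, mul_zero, Finset.sum_congr rfl fun o _ => h8 o, Finset.sum_add_distrib, quad, add_zero,
      h1] at h9
    exact one_ne_zero h9

theorem card_ng (p : Fin (m + 1)) (U : Finset (Fin (m + 1) → Bool)) (hU : ∀ o ∈ U, ng o ∈ U)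
    (b : Bool) : (hs p b U).card = (hs p (!b) U).card := by
  refine Finset.card_nbij' ng ng ?_ ?_ ?_ ?_
  · intro o ho
    rw [Finset.mem_coe, mem_hs] at ho ⊢
    rw [← ng_ins]
    exact hU _ ho
  · intro o ho
    rw [Finset.mem_coe, mem_hs] at ho ⊢
    have h1 := hU _ ho
    rw [ng_ins, Bool.not_not] at h1
    exact h1
  · intro o _
    exact ng_ng o
  · intro o _
    exact ng_ng o

theorem sum3 (g : (Fin 3 → Bool) → ZMod 2) (o : Fin 3 → Bool) :
    ∑ o, g o = g o + nb g o + (g (ng o) + nb g (ng o)) := by
  have h0 : (Finset.univ : Finset (Fin 3 → Bool)) = {![true, true, true], ![true, true, false],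
      ![true, false, true], ![true, false, false], ![false, true, true], ![false, true, false],
      ![false, false, true], ![false, false, false]} := by decide
  have h1 : ∀ o : Fin 3 → Bool, o = ![o 0, o 1, o 2] := by
    intro o
    funext i
    fin_cases i <;> rfl
  have h2 : ∑ o, g o = g ![true, true, true] + (g ![true, true, false] +
      (g ![true, false, true] + (g ![true, false, false] + (g ![false, true, true] +
      (g ![false, true, false] + (g ![false, false, true] + g ![false, false, false])))))) := by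
    rw [h0]
    rw [Finset.sum_insert (by decide), Finset.sum_insert (by decide), Finset.sum_insert (by decide),
      Finset.sum_insert (by decide), Finset.sum_insert (by decide), Finset.sum_insert (by decide),
      Finset.sum_insert (by decide), Finset.sum_singleton]
  have hf0 : ∀ a b c : Bool, fl 0 ![a, b, c] = ![!a, b, c] := by decide
  have hf1 : ∀ a b c : Bool, fl 1 ![a, b, c] = ![a, !b, c] := by decide
  have hf2 : ∀ a b c : Bool, fl 2 ![a, b, c] = ![a, b, !c] := by decide
  have hn : ∀ a b c : Bool, ng ![a, b, c] = ![!a, !b, !c] := by decide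
  rw [h2, h1 o, hn]
  unfold nb
  rw [Fin.sum_univ_three, Fin.sum_univ_three, hf0, hf1, hf2, hf0, hf1, hf2]
  cases o 0 <;> cases o 1 <;> cases o 2 <;> simp only [Bool.not_true, Bool.not_false] <;> ring

theorem count3 (f : (Fin 3 → Bool) → ZMod 2) (hf1 : ∑ o, f o = 1)
    (U : Finset (Fin 3 → Bool)) (hU : ∀ o, f o ≠ 0 → o ∈ U) (hN : ∀ o, nb f o ≠ 0 → o ∈ U)
    (hn : ∀ o ∈ U, ng o ∈ U) : 8 ≤ U.card := by
  have h1 : U = Finset.univ := by
    ext o
    refine ⟨fun _ => Finset.mem_univ _, fun _ => ?_⟩
    by_contra h2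
    have h3 : ng o ∉ U := fun h => h2 (by
      have := hn _ h
      rwa [ng_ng] at this)
    have a1 : f o = 0 := by by_contra h; exact h2 (hU _ h)
    have a2 : f (ng o) = 0 := by by_contra h; exact h3 (hU _ h)
    have a3 : nb f o = 0 := by by_contra h; exact h2 (hN _ h)
    have a4 : nb f (ng o) = 0 := by by_contra h; exact h3 (hN _ h)
    rw [sum3 f o, a1, a2, a3, a4] at hf1
    exact absurd hf1 (by decide)
  rw [h1]
  decide

/-- **The same for sets which are closed under the antipodal map.** -/
theorem count_ng : ∀ (k : ℕ) (f : (Fin (k + 3) → Bool) → ZMod 2), ∑ o, f o = 1 →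
    ∀ U : Finset (Fin (k + 3) → Bool), (∀ o, f o ≠ 0 → o ∈ U) → (∀ o, nb f o ≠ 0 → o ∈ U) →
      (∀ o ∈ U, ng o ∈ U) → 2 * (k + 4) ≤ U.card := by
  classical
  intro k
  induction k with
  | zero =>
    intro f hf1 U hU hN hn
    exact count3 f hf1 U hU hN hn
  | succ k ih =>
    intro f hf1 U hU hN hn
    by_contra hcon
    have key : ∀ (p : Fin (k + 3 + 1)) (o : Fin (k + 3) → Bool), o ∈ hs p true U → o ∉ hs p false U := by
      intro p
      obtain ⟨b, h1, h2⟩ := exists_b p f hf1
      have hc := card_hs p U true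
      have hc2 := card_ng p U hn true
      rw [Bool.not_true] at hc hc2
      have hU0 : ∀ b o, hf p b f o ≠ 0 → o ∈ hs p b U := fun b o h => (mem_hs _ _ _ _).2 (hU _ h)
      have hN0 : ∀ b o, hf p (!b) f o + nb (hf p b f) o ≠ 0 → o ∈ hs p b U := fun b o h =>
        (mem_hs _ _ _ _).2 (hN _ (by rw [nb_ins]; exact h))
      have hb : ∀ b o, o ∈ hs p b U → o ∈ hs p true U ∪ hs p false U := by
        intro b o ho
        cases b
        · exact Finset.mem_union_right _ ho
        · exact Finset.mem_union_left _ ho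
      have h3 := ih (hf p b f) h1 (hs p true U ∪ hs p false U) (fun o ho => hb b o (hU0 b o ho))
        (fun o ho => by
          by_cases h4 : hf p (!b) f o = 0
          · refine hb b o (hN0 b o ?_)
            rw [h4, zero_add]
            exact ho
          · exact hb (!b) o (hU0 (!b) o h4))
        (fun o ho => by
          rcases Finset.mem_union.1 ho with h4 | h4
          · rw [mem_hs] at h4
            have h5 := hn _ h4
            rw [ng_ins, Bool.not_true] at h5
            exact Finset.mem_union_right _ ((mem_hs _ _ _ _).2 h5)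
          · rw [mem_hs] at h4
            have h5 := hn _ h4
            rw [ng_ins, Bool.not_false] at h5
            exact Finset.mem_union_left _ ((mem_hs _ _ _ _).2 h5))
      have h4 := Finset.card_union_le (hs p true U) (hs p false U)
      have h5 : Disjoint (hs p true U) (hs p false U) := by
        rw [← Finset.card_union_eq_card_add_card]
        omega
      exact fun o => fun h6 h7 => (Finset.disjoint_left.1 h5) h6 h7
    obtain ⟨o, ho⟩ := nb_ne f hf1
    obtain ⟨i, _, hi⟩ := Finset.exists_ne_zero_of_sum_ne_zero ho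
    have h1 := hN o ho
    have h2 := hU _ hi
    have h3 : ∀ b, (i.insertNth (α := fun _ => Bool) b (i.removeNth o) ∈ U) := by
      intro b
      by_cases hb : b = o i
      · rw [hb, Fin.insertNth_self_removeNth]
        exact h1
      · have h4 : b = !(o i) := by
          cases b <;> cases h5 : o i <;> simp_all
        have h6 := fl_same i (o i) (i.removeNth o)
        rw [Fin.insertNth_self_removeNth] at h6
        rw [h4, ← h6]
        exact h2
    exact key i (i.removeNth o) ((mem_hs _ _ _ _).2 (h3 true)) ((mem_hs _ _ _ _).2 (h3 false))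

/-- both bounds -/
theorem count_min (f : (Fin m → Bool) → ZMod 2) (hf1 : ∑ o, f o = 1)
    (U : Finset (Fin m → Bool)) (hU : ∀ o, f o ≠ 0 → o ∈ U) (hN : ∀ o, nb f o ≠ 0 → o ∈ U)
    (hn : ∀ o ∈ U, ng o ∈ U) : min (2 * (m + 1)) (2 ^ m) ≤ U.card := by
  have h1 := count m f hf1 U hU hN
  rcases m with _ | _ | _ | k
  · have h2 : 2 ^ 0 = 1 := by norm_num
    exact (min_le_right _ _).trans (h2.le.trans h1)
  · have h2 : 2 ^ (0 + 1) = 2 := by norm_num
    exact (min_le_right _ _).trans (h2.le.trans h1)
  · refine (min_le_right _ _).trans ?_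
    have hc := card_hs 0 U true
    have hc2 := card_ng 0 U hn true
    have h2 : 2 ^ (0 + 1 + 1) = 4 := by norm_num
    rw [h2]
    rw [Bool.not_true] at hc hc2
    omega
  · exact (min_le_left _ _).trans (count_ng k f hf1 U hU hN hn)

end Pool.Agent.K9h82.OC
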