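import Pool.Agent.K9h82.OC.Cube
import Pool.Agent.K9h82.HT.Asm
import Pool.Agent.N819.LT.Par

/-!
# Orientations of labelled trees
-/

set_option autoImplicit false

namespace Pool.Agent.K9h82.OC

open Pool.Agent.TH625.LOG Pool.Agent.N819.LT Pool.Agent.K9h82.HT
open Pool.Agent.K9h82.UC (revL)

section mat

variable {V E : Type} [Fintype V] [Fintype E] [DecidableEq V] [DecidableEq E]

/-- the integral matrix of a graph -/
def mz (r : V) (σ : V ≃ Option E) (p q : E → V) : Matrix V V ℤ := fun v w =>
  (σ v).elim (if w = r then 1 else 0)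
    (fun e => (if w = p e then 1 else 0) - (if w = q e then 1 else 0))

theorem mz_none (r : V) (σ : V ≃ Option E) (p q : E → V) (w : V) :
    mz r σ p q (σ.symm none) w = if w = r then 1 else 0 := by
  unfold mz
  rw [Equiv.apply_symm_apply]
  rfl

theorem mz_some (r : V) (σ : V ≃ Option E) (p q : E → V) (e : E) (w : V) :
    mz r σ p q (σ.symm (some e)) w = (if w = p e then 1 else 0) - (if w = q e then 1 else 0) := by
  unfold mz
  rw [Equiv.apply_symm_apply]
  rfl

theorem det_mod (r : V) (σ : V ≃ Option E) (p q : E → V) :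
    (((mz r σ p q).det : ℤ) : ZMod 2) = (mat r σ p q).det := by
  have h1 : mat r σ p q = ((Int.castRingHom (ZMod 2)).mapMatrix (mz r σ p q)).submatrix σ.symm σ.symm := by
    funext i j
    have hm : ∀ a b : ZMod 2, a - b = a + b := by decide
    cases i with
    | none =>
      show (if σ.symm j = r then (1 : ZMod 2) else 0) = ((mz r σ p q (σ.symm none) (σ.symm j) : ℤ) : ZMod 2)
      rw [mz_none]
      push_cast
      rfl
    | some e =>
      show (if σ.symm j = p e then (1 : ZMod 2) else 0) + (if σ.symm j = q e then 1 else 0) =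
        ((mz r σ p q (σ.symm (some e)) (σ.symm j) : ℤ) : ZMod 2)
      rw [mz_some]
      push_cast
      rw [hm]
  rw [h1, Matrix.det_submatrix_equiv_self, ← RingHom.map_det]
  rfl

theorem odd_iff (r : V) (σ : V ≃ Option E) (p q : E → V) :
    (((mz r σ p q).det : ℤ) : ZMod 2) ≠ 0 ↔ Conn p q := by
  rw [det_mod]
  exact det_ne_zero_iff r σ p q

omit [Fintype V] [DecidableEq V] [DecidableEq E] in
theorem sum_opt [Fintype V] (σ : V ≃ Option E) (F : V → ℤ) :
    ∑ u, F u = F (σ.symm none) + ∑ e, F (σ.symm (some e)) := by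
  rw [← σ.symm.sum_comp F, Fintype.sum_option]

omit [DecidableEq V] [DecidableEq E] [Fintype E] in
theorem det_row {n : Type} [Fintype n] [DecidableEq n] (A : Matrix n n ℤ) (i : n) (b : n → ℤ) :
    (A.updateRow i b).det = ∑ j, b j * A.adjugate j i := by
  rw [Matrix.det_eq_sum_mul_adjugate_row (A.updateRow i b) i]
  refine Finset.sum_congr rfl fun j _ => ?_
  rw [Matrix.updateRow_self, Matrix.adjugate_apply, Matrix.adjugate_apply, Matrix.updateRow_idem]

end mat

section one

variable {V E : Type} [Fintype V] [Fintype E] [DecidableEq V] [DecidableEq E]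

omit [Fintype V] [Fintype E] [DecidableEq V] [DecidableEq E] in
theorem closed_of_conn {p q : E → V} (h : Conn p q) (B : Set V) (hB : ∀ e, p e ∈ B ↔ q e ∈ B) :
    ∀ v w, v ∈ B → w ∈ B := by
  intro v w hv
  induction h v w with
  | refl => exact hv
  | tail _ h1 ih =>
    obtain ⟨e, ⟨rfl, rfl⟩ | ⟨rfl, rfl⟩⟩ := h1
    · exact (hB e).1 ih
    · exact (hB e).2 ih

open Classical in
/-- **One cycle.** -/
theorem flt_one (L : LOG V E) (hcard : Fintype.card V = Fintype.card E + 1)
    (hno : ¬ Conn L.ini L.lab)
    (hodd : ∑ e, (if Conn (Function.update L.ini e (L.ter e)) L.lab then (1 : ZMod 2) else 0) ≠ 0) :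
    ∃ κ, Flt L 1 κ := by
  have hne : Nonempty V := by
    rw [← Fintype.card_pos_iff, hcard]; omega
  obtain ⟨r⟩ := hne
  have hc : Fintype.card V = Fintype.card (Option E) := by rw [Fintype.card_option, hcard]
  let σ : V ≃ Option E := Fintype.equivOfCardEq hc
  obtain ⟨e0, -, he0⟩ := Finset.exists_ne_zero_of_sum_ne_zero hodd
  have hce0 : Conn (Function.update L.ini e0 (L.ter e0)) L.lab := by
    by_contra h
    exact he0 (if_neg h)
  let R : V → V → Prop := fun a b => ∃ e, L.ini e = a ∧ L.lab e = b
  have hRc : ∀ v e, Relation.EqvGen R v (L.ini e) ↔ Relation.EqvGen R v (L.lab e) := by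
    intro v e
    have h1 : Relation.EqvGen R (L.ini e) (L.lab e) := Relation.EqvGen.rel _ _ ⟨e, rfl, rfl⟩
    exact ⟨fun h => h.trans _ _ _ h1, fun h => h.trans _ _ _ (h1.symm _ _)⟩
  -- closed sets
  have hcl : ∀ B : Set V, (∀ e, L.ini e ∈ B ↔ L.lab e ∈ B) → (L.ter e0 ∈ B ↔ L.lab e0 ∈ B) →
      ∀ v w, v ∈ B → w ∈ B := by
    intro B h1 h2
    refine closed_of_conn hce0 B fun e => ?_
    by_cases he : e = e0
    · subst he
      rw [Function.update_self]
      exact h2
    · rw [Function.update_of_ne he]
      exact h1 e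
  let C : Set V := {v | Relation.EqvGen R (L.lab e0) v}
  have hC0 : L.lab e0 ∈ C := Relation.EqvGen.refl _
  have hCc : ∀ e, L.ini e ∈ C ↔ L.lab e ∈ C := fun e => hRc _ e
  have hter : L.ter e0 ∉ C := by
    intro h1
    have h2 : ∀ w, w ∈ C := fun w => hcl C hCc ⟨fun _ => hC0, fun _ => h1⟩ _ w hC0
    apply hno
    have h3 : ∀ a b, Relation.EqvGen R a b → Relation.ReflTransGen (Joined L.ini L.lab) a b := by
      intro a b hab
      induction hab with
      | rel a b h =>
        obtain ⟨e, h4, h5⟩ := h
        exact Relation.ReflTransGen.single ⟨e, Or.inl ⟨h4, h5⟩⟩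
      | refl a => exact Relation.ReflTransGen.refl
      | symm a b _ ih =>
        have hs : ∀ x y, Relation.ReflTransGen (Joined L.ini L.lab) x y →
            Relation.ReflTransGen (Joined L.ini L.lab) y x := by
          intro x y hxy
          induction hxy with
          | refl => exact Relation.ReflTransGen.refl
          | tail _ h1 ih => exact Relation.ReflTransGen.head h1.symm ih
        exact hs _ _ ih
      | trans a b c _ _ ih1 ih2 => exact ih1.trans ih2
    intro v w
    exact h3 v w (((h2 v).symm _ _).trans _ _ _ (h2 w))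
  -- the other component
  have hoth : ∀ v, v ∉ C → Relation.EqvGen R v (L.ter e0) := by
    intro v hv
    by_contra h1
    have h2 : L.lab e0 ∉ {u | Relation.EqvGen R v u} := fun h => hv (Relation.EqvGen.symm _ _ h)
    exact h2 (hcl {u | Relation.EqvGen R v u} (fun e => hRc v e)
      ⟨fun h => absurd h h1, fun h => absurd h h2⟩ v _ (Relation.EqvGen.refl _))
  let κ : V → ℕ := fun v => if v ∈ C then 0 else 1
  have hκ0 : ∀ v, v ∈ C → κ v = 0 := fun v hv => if_pos hv
  have hκ1 : ∀ v, v ∉ C → κ v = 1 := fun v hv => if_neg hv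
  -- the matrix
  let M : Matrix V V ℤ := mz r σ L.ini L.lab
  have hdet : M.det = 0 := by
    refine Matrix.exists_mulVec_eq_zero_iff.1
      ⟨fun v => (if v ∈ C then 1 else 0) - (if r ∈ C then 1 else 0), ?_, ?_⟩
    · intro h1
      have h2 := congrFun h1 (L.lab e0)
      have h3 := congrFun h1 (L.ter e0)
      simp only [Pi.zero_apply] at h2 h3
      rw [if_pos hC0] at h2
      rw [if_neg hter] at h3
      omega
    · funext v
      obtain ⟨i, rfl⟩ := σ.symm.surjective v
      cases i with
      | none =>
        change ∑ w, M (σ.symm none) w * _ = 0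
        simp only [M, mz_none, ite_mul, one_mul, zero_mul, Finset.sum_ite_eq', Finset.mem_univ, if_true,
          sub_self]
      | some e =>
        change ∑ w, M (σ.symm (some e)) w * _ = 0
        simp only [M, mz_some, sub_mul, ite_mul, one_mul, zero_mul, Finset.sum_sub_distrib,
          Finset.sum_ite_eq', Finset.mem_univ, if_true]
        by_cases h1 : L.ini e ∈ C
        · rw [if_pos h1, if_pos ((hCc e).1 h1)]
          ring
        · rw [if_neg h1, if_neg fun h => h1 ((hCc e).2 h)]
          ring
  let A : Matrix V V ℤ := M.adjugate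
  have hAM : ∀ w v, ∑ u, A w u * M u v = 0 := by
    intro w v
    have h1 : A * M = 0 := by
      rw [Matrix.adjugate_mul, hdet, zero_smul]
    exact congrFun (congrFun h1 w) v
  have hMA : ∀ u v, ∑ w, M u w * A w v = 0 := by
    intro u v
    have h1 : M * A = 0 := by
      rw [Matrix.mul_adjugate, hdet, zero_smul]
    exact congrFun (congrFun h1 u) v
  -- the columns are constant on the components
  have hcol : ∀ u e, A (L.ini e) u = A (L.lab e) u := by
    intro u e
    have h1 := hMA (σ.symm (some e)) u
    simp only [M, mz_some, sub_mul, ite_mul, one_mul, zero_mul, Finset.sum_sub_distrib,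
      Finset.sum_ite_eq', Finset.mem_univ, if_true] at h1
    exact sub_eq_zero.1 h1
  have hcolE : ∀ u a b, Relation.EqvGen R a b → A a u = A b u := by
    intro u a b hab
    induction hab with
    | rel a b h =>
      obtain ⟨e, rfl, rfl⟩ := h
      exact hcol u e
    | refl a => rfl
    | symm a b _ ih => exact ih.symm
    | trans a b c _ _ ih1 ih2 => exact ih1.trans ih2
  let y : V → ℤ := fun u => A (L.ter e0) u - A (L.lab e0) u
  have hy : ∀ v, y (σ.symm none) * (if v = r then 1 else 0) +
      ∑ e, y (σ.symm (some e)) * ((if v = L.ini e then 1 else 0) - (if v = L.lab e then 1 else 0)) = 0 := by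
    intro v
    have h1 : ∑ u, y u * M u v = 0 := by
      have h2 : ∀ u, y u * M u v = A (L.ter e0) u * M u v - A (L.lab e0) u * M u v :=
        fun u => sub_mul _ _ _
      rw [Finset.sum_congr rfl fun u _ => h2 u, Finset.sum_sub_distrib, hAM, hAM, sub_zero]
    rw [sum_opt σ] at h1
    simp only [M, mz_none, mz_some] at h1
    exact h1
  have hy0 : y (σ.symm none) = 0 := by
    have h1 : ∑ v, (y (σ.symm none) * (if v = r then 1 else 0) +
      ∑ e, y (σ.symm (some e)) * ((if v = L.ini e then 1 else 0) - (if v = L.lab e then 1 else 0))) =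
        0 := Finset.sum_eq_zero fun v _ => hy v
    rw [Finset.sum_add_distrib, Finset.sum_comm] at h1
    have h2 : ∀ e ∈ (Finset.univ : Finset E), ∑ v, y (σ.symm (some e)) *
        ((if v = L.ini e then 1 else 0) - (if v = L.lab e then 1 else 0)) = 0 := by
      intro e _
      rw [← Finset.mul_sum, Finset.sum_sub_distrib, Finset.sum_ite_eq', Finset.sum_ite_eq',
        if_pos (Finset.mem_univ _), if_pos (Finset.mem_univ _), sub_self, mul_zero]
    rw [Finset.sum_eq_zero h2, add_zero, ← Finset.mul_sum, Finset.sum_ite_eq',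
      if_pos (Finset.mem_univ _), mul_one] at h1
    exact h1
  let z : E → ℤ := fun e => y (σ.symm (some e))
  -- the flipped matrices
  have hflip : ∀ e, (mz r σ (Function.update L.ini e (L.ter e)) L.lab).det =
      z e * ((if κ (L.ter e) = 1 then 1 else 0) - (if κ (L.lab e) = 1 then 1 else 0)) := by
    intro e
    have h1 : mz r σ (Function.update L.ini e (L.ter e)) L.lab = M.updateRow (σ.symm (some e))
        (fun w => (if w = L.ter e then 1 else 0) - (if w = L.lab e then 1 else 0)) := by
      funext v w
      by_cases hv : v = σ.symm (some e)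
      · subst hv
        rw [Matrix.updateRow_self, mz_some, Function.update_self]
      · rw [Matrix.updateRow_ne hv]
        obtain ⟨i, rfl⟩ := σ.symm.surjective v
        cases i with
        | none => simp only [M, mz_none]
        | some e' =>
          have h2 : e' ≠ e := fun h => hv (by rw [h])
          simp only [M, mz_some, Function.update_of_ne h2]
    rw [h1, det_row]
    simp only [sub_mul, ite_mul, one_mul, zero_mul, Finset.sum_sub_distrib,
      Finset.sum_ite_eq', Finset.mem_univ, if_true]
    have h2 : ∀ v u, v ∈ C → M.adjugate v u = A (L.lab e0) u := fun v u hv =>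
      (hcolE u _ _ hv).symm
    have h3 : ∀ v u, v ∉ C → M.adjugate v u = A (L.ter e0) u := fun v u hv =>
      hcolE u _ _ (hoth v hv)
    by_cases h4 : L.ter e ∈ C <;> by_cases h5 : L.lab e ∈ C
    · rw [h2 _ _ h4, h2 _ _ h5, hκ0 _ h4, hκ0 _ h5]
      simp
    · rw [h2 _ _ h4, h3 _ _ h5, hκ0 _ h4, hκ1 _ h5]
      simp only [zero_ne_one, if_false, if_true, z, y]
      ring
    · rw [h3 _ _ h4, h2 _ _ h5, hκ1 _ h4, hκ0 _ h5]
      simp only [zero_ne_one, if_false, if_true, z, y]
      ring
    · rw [h3 _ _ h4, h3 _ _ h5, hκ1 _ h4, hκ1 _ h5]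
      simp
  have hT : ∑ e, z e * ((if κ (L.ter e) = 1 then 1 else 0) - (if κ (L.lab e) = 1 then 1 else 0)) ≠ 0 := by
    intro h0
    apply hodd
    have h1 := congrArg (fun t : ℤ => (t : ZMod 2)) h0
    simp only [Int.cast_sum, Int.cast_zero] at h1
    refine Eq.trans (Finset.sum_congr rfl fun e _ => ?_) h1
    rw [← hflip]
    by_cases h2 : Conn (Function.update L.ini e (L.ter e)) L.lab
    · rw [if_pos h2]
      exact (z2 _ ((odd_iff r σ _ _).2 h2)).symm
    · rw [if_neg h2]
      by_contra h3
      exact h2 ((odd_iff r σ _ _).1 (fun h => h3 h.symm))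
  refine ⟨κ, ⟨?_, ?_, ?_⟩⟩
  · intro v
    by_cases hv : v ∈ C
    · rw [hκ0 v hv]; omega
    · rw [hκ1 v hv]
  · intro v w
    constructor
    · intro h1
      by_cases hv : v ∈ C
      · by_cases hw : w ∈ C
        · exact (Relation.EqvGen.symm _ _ hv).trans _ _ _ hw
        · rw [hκ0 v hv, hκ1 w hw] at h1
          exact absurd h1 zero_ne_one
      · by_cases hw : w ∈ C
        · rw [hκ1 v hv, hκ0 w hw] at h1
          exact absurd h1 one_ne_zero
        · exact (hoth v hv).trans _ _ _ ((hoth w hw).symm _ _)
    · intro h1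
      have h2 : v ∈ C ↔ w ∈ C := ⟨fun h => h.trans _ _ _ h1, fun h => h.trans _ _ _ (h1.symm _ _)⟩
      by_cases hv : v ∈ C
      · rw [hκ0 v hv, hκ0 w (h2.1 hv)]
      · rw [hκ1 v hv, hκ1 w fun h => hv (h2.2 h)]
  · intro k hk1 hk2
    have hk : k = 1 := by omega
    subst hk
    refine ⟨z, ?_, ?_, ?_⟩
    · intro v
      have h1 := hy v
      rw [hy0, zero_mul, zero_add] at h1
      refine Eq.trans (Finset.sum_congr rfl fun e _ => ?_) h1
      by_cases h2 : L.ini e = v <;> by_cases h3 : L.lab e = v
      · rw [if_pos h2, if_pos h3, if_pos h2.symm, if_pos h3.symm]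
      · rw [if_pos h2, if_neg h3, if_pos h2.symm, if_neg fun h => h3 h.symm]
      · rw [if_neg h2, if_pos h3, if_neg (fun h => h2 h.symm), if_pos h3.symm]
      · rw [if_neg h2, if_neg h3, if_neg (fun h => h2 h.symm), if_neg fun h => h3 h.symm]
    · intro e _
      have hle : ∀ v, κ v ≤ 1 := by
        intro v
        by_cases hv : v ∈ C
        · rw [hκ0 v hv]; omega
        · rw [hκ1 v hv]
      exact ⟨hle _, hle _⟩
    · by_contra hcon
      push Not at hcon
      apply hT
      have h1 : ∑ e, z e * ((if κ (L.ter e) = 1 then 1 else 0) - (if κ (L.lab e) = 1 then 1 else 0)) =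
          ∑ g ∈ Finset.univ.image (fun e => L.gen (L.lab e)), crossing L κ 1 z g := by
        unfold crossing
        rw [Finset.sum_comm]
        refine Finset.sum_congr rfl fun e _ => ?_
        rw [Finset.sum_ite_eq, if_pos (Finset.mem_image_of_mem _ (Finset.mem_univ e))]
      rw [h1]
      exact Finset.sum_eq_zero fun g _ => hcon g

theorem flt_zero (L : LOG V E) (hc : Conn L.ini L.lab) : Flt L 0 fun _ => 0 := by
  refine ⟨fun _ => le_rfl, fun v w => ⟨fun _ => ?_, fun _ => rfl⟩, fun k h1 h2 => by omega⟩
  induction hc v w with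
  | refl => exact Relation.EqvGen.refl _
  | tail _ h1 ih =>
    obtain ⟨e, ⟨h2, h3⟩ | ⟨h2, h3⟩⟩ := h1
    · exact ih.trans _ _ _ (Relation.EqvGen.rel _ _ ⟨e, h2, h3⟩)
    · exact ih.trans _ _ _ ((Relation.EqvGen.rel _ _ ⟨e, h3, h2⟩).symm _ _)

end one

section fin

variable {V E : Type} [Fintype V] [Fintype E]

/-- All subcomplexes of the complex of `L` (with all the 1-cells) are aspherical and have locally
indicable fundamental groups. -/
def AllLI (L : LOG V E) : Prop :=
  ∀ S : Set E, LocInd (sub L S).G ∧ ∀ c, (sub L S).bdry c = 0 → c = 0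

theorem conn_log (x : LTree V E) (o : E → Bool) : (x.log o).Conn := by
  have key : ∀ y z, Joined x.a x.b y z → (x.log o).Adj y z := by
    rintro y z ⟨e, h | h⟩
    · by_cases ho : o e = true
      · exact ⟨e, Or.inr ⟨by simp [LTree.log, ho, h.1], by simp [LTree.log, ho, h.2]⟩⟩
      · exact ⟨e, Or.inl ⟨by simp [LTree.log, ho, h.1], by simp [LTree.log, ho, h.2]⟩⟩
    · by_cases ho : o e = true
      · exact ⟨e, Or.inl ⟨by simp [LTree.log, ho, h.1], by simp [LTree.log, ho, h.2]⟩⟩
      · exact ⟨e, Or.inr ⟨by simp [LTree.log, ho, h.1], by simp [LTree.log, ho, h.2]⟩⟩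
  intro y z
  induction x.conn y z with
  | refl => exact Relation.ReflTransGen.refl
  | tail _ h ih => exact ih.tail (key _ _ h)

theorem log_rev (x : LTree V E) (o : E → Bool) : x.log (fun e => !o e) = revL (x.log o) := by
  have h1 : (x.log fun e => !o e).ini = (x.log o).ter := by
    funext e
    cases h : o e <;> simp [LTree.log, h]
  have h2 : (x.log fun e => !o e).ter = (x.log o).ini := by
    funext e
    cases h : o e <;> simp [LTree.log, h]
  show (⟨(x.log fun e => !o e).ini, (x.log fun e => !o e).ter, x.lab⟩ : LOG V E) =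
    ⟨(x.log o).ter, (x.log o).ini, x.lab⟩
  rw [h1, h2]

theorem li_rev_all (x : LTree V E) (o : E → Bool) (h : AllLI (x.log o)) :
    AllLI (x.log fun e => !o e) := by
  intro S
  have h1 : LocInd (sub (x.log fun e => !o e) S).G := by
    rw [log_rev]
    exact li_rev (revL (x.log o)) S (h S).1
  exact ⟨h1, asph_of_li _ (conn_log x _) x.card S h1⟩

theorem log_flip [DecidableEq E] (x : LTree V E) (o : E → Bool) (e : E) :
    (x.log (Function.update o e (!o e))).ini =
      Function.update (x.log o).ini e ((x.log o).ter e) := by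
  funext e'
  by_cases h : e' = e
  · subst h
    cases h : o e' <;> simp [LTree.log, h]
  · simp [LTree.log, Function.update_of_ne h]

open Classical in
/-- **Many orientations.** -/
theorem many (x : LTree V E) :
    min (2 * Fintype.card V) (2 ^ Fintype.card E) ≤ {o : E → Bool | AllLI (x.log o)}.ncard := by
  let m := Fintype.card E
  let ε : E ≃ Fin m := Fintype.equivFin E
  let f : (E → Bool) → ZMod 2 := fun o => if Conn (x.log o).ini x.lab then 1 else 0
  let F : (Fin m → Bool) → ZMod 2 := fun o => f (fun e => o (ε e))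
  have hε : Function.Bijective (fun (o : Fin m → Bool) (e : E) => o (ε e)) :=
    (Equiv.arrowCongr ε.symm (Equiv.refl Bool)).bijective
  have hsum : ∑ o, F o = 1 := by
    have h1 : ∑ o, F o = ∑ o, f o := hε.sum_comp f
    rw [h1]
    have h2 := (parity x ∅ (fun _ => false)).2 (by simpa using x.conn)
    have h3 : ∑ o, f o = (((Finset.univ.filter fun o : E → Bool => (∀ e ∈ (∅ : Finset E), o e = false) ∧
        Conn (x.log o).ini x.lab).card : ℕ) : ZMod 2) := by
      rw [Finset.card_filter]
      push_cast
      refine Finset.sum_congr rfl fun o _ => ?_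
      by_cases h4 : Conn (x.log o).ini x.lab
      · simp [f, h4]
      · simp [f, h4]
    rw [h3]
    exact (ZMod.natCast_eq_one_iff_odd).2 h2
  let U : Finset (Fin m → Bool) := Finset.univ.filter fun o => AllLI (x.log fun e => o (ε e))
  have hflip : ∀ (i : Fin m) (o : Fin m → Bool), (fun e => fl i o (ε e)) =
      Function.update (fun e => o (ε e)) (ε.symm i) (!o i) := by
    intro i o
    funext e
    by_cases h : e = ε.symm i
    · subst h
      rw [Function.update_self, Equiv.apply_symm_apply]
      unfold fl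
      rw [Function.update_self]
    · rw [Function.update_of_ne h]
      unfold fl
      rw [Function.update_of_ne fun h1 => h (by rw [← h1, Equiv.symm_apply_apply])]
  have hU : ∀ o, F o ≠ 0 → o ∈ U := by
    intro o ho
    refine Finset.mem_filter.2 ⟨Finset.mem_univ _, fun S => ?_⟩
    have h1 : Conn (x.log fun e => o (ε e)).ini x.lab := by
      by_contra h
      exact ho (if_neg h)
    exact main _ (conn_log x _) x.card ⟨0, _, Or.inl (flt_zero _ h1)⟩ S
  have hN : ∀ o, nb F o ≠ 0 → o ∈ U := by
    intro o ho
    by_cases h0 : F o ≠ 0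
    · exact hU o h0
    · refine Finset.mem_filter.2 ⟨Finset.mem_univ _, fun S => ?_⟩
      have h1 : ¬ Conn (x.log fun e => o (ε e)).ini x.lab := fun h => h0 (by
        show (if Conn (x.log fun e => o (ε e)).ini x.lab then (1 : ZMod 2) else 0) ≠ 0
        rw [if_pos h]
        exact one_ne_zero)
      obtain ⟨κ, hκ⟩ := flt_one (x.log fun e => o (ε e)) x.card h1 (by
        have h2 : ∑ e, (if Conn (Function.update (x.log fun e => o (ε e)).ini e
            ((x.log fun e => o (ε e)).ter e)) x.lab then (1 : ZMod 2) else 0) = nb F o := by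
          unfold nb
          rw [← ε.sum_comp]
          refine Finset.sum_congr rfl fun e _ => ?_
          show _ = if Conn (x.log fun e' => fl (ε e) o (ε e')).ini x.lab then (1 : ZMod 2) else 0
          rw [hflip, Equiv.symm_apply_apply, log_flip]
        exact fun h => ho (h2.symm.trans h))
      exact main _ (conn_log x _) x.card ⟨1, κ, Or.inl hκ⟩ S
  have hn : ∀ o ∈ U, ng o ∈ U := by
    intro o ho
    refine Finset.mem_filter.2 ⟨Finset.mem_univ _, ?_⟩
    exact li_rev_all x _ (Finset.mem_filter.1 ho).2
  have h1 := count_min F hsum U hU hN hn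
  have h2 : U.card = {o : E → Bool | AllLI (x.log o)}.ncard := by
    rw [← Set.ncard_coe_finset]
    refine Set.ncard_congr (fun o _ e => o (ε e)) ?_ ?_ ?_
    · intro o ho
      exact (Finset.mem_filter.1 (Finset.mem_coe.1 ho)).2
    · intro o o' _ _ h
      exact hε.1 h
    · intro o ho
      obtain ⟨o', rfl⟩ := hε.2 o
      exact ⟨o', Finset.mem_coe.2 (Finset.mem_filter.2 ⟨Finset.mem_univ _, ho⟩), rfl⟩
  rw [← h2, x.card]
  exact h1

end fin

end Pool.Agent.K9h82.OC
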